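import Pool.Agent.H21.ExpPairSum

set_option autoImplicit false

namespace Pool.Agent.H21

open Real Finset

/-- the constant `3^(-3/2)`, written as `8 / 12^(3/2)` -/
noncomputable def kap : ℝ := 8 / (12 : ℝ) ^ (3 / 2 : ℝ)

lemma kap_pos : 0 < kap := by unfold kap; positivity

/-- the phase `(x/3)^(3/2)` -/
noncomputable def fph (x : ℝ) : ℝ := kap * x ^ (3 / 2 : ℝ)

lemma fph_eq_g {x : ℝ} (hx : 0 ≤ x) : fph x = g x := by
  unfold fph g T kap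
  have h1 : √(x / 12) ^ 3 = (x / 12) ^ (3 / 2 : ℝ) := by
    rw [Real.sqrt_eq_rpow, ← Real.rpow_natCast, ← Real.rpow_mul (by positivity)]
    norm_num
  rw [h1, Real.div_rpow hx (by norm_num)]
  ring

/-- absolute values of the falling factorials of `3/2` -/
noncomputable def Dj (j : ℕ) : ℝ := |(descPochhammer ℝ j).eval (3 / 2 : ℝ)|

lemma Dj_pos (j : ℕ) : 0 < Dj j := by
  unfold Dj
  rw [abs_pos]
  induction j with
  | zero => simp
  | succ k ih =>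
    rw [descPochhammer_succ_right, Polynomial.eval_mul]
    apply mul_ne_zero ih
    simp only [Polynomial.eval_sub, Polynomial.eval_X, Polynomial.eval_natCast]
    intro h
    have h2 : (3 : ℝ) = ((2 * k : ℕ) : ℝ) := by push_cast; linarith
    have h3 : (3 : ℕ) = 2 * k := by exact_mod_cast h2
    omega

lemma iter_fph {a b x : ℝ} (ha : 0 < a) (hab : a < b) (hx : x ∈ Set.Icc a b) (j : ℕ) :
    iteratedDerivWithin j fph (Set.Icc a b) x =
      kap * ((descPochhammer ℝ j).eval (3 / 2 : ℝ) * x ^ ((3 / 2 : ℝ) - j)) := by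
  have hx0 : x ≠ 0 := by
    have := hx.1; intro h; linarith
  have hcd : ContDiffAt ℝ j fph x := by
    unfold fph
    exact contDiffAt_const.mul (Real.contDiffAt_rpow_const_of_ne hx0)
  rw [iteratedDerivWithin_eq_iteratedDeriv (uniqueDiffOn_Icc hab) hcd hx]
  have : fph = fun x => kap * (fun y : ℝ => y ^ (3 / 2 : ℝ)) x := rfl
  rw [this, iteratedDeriv_const_mul_field, iteratedDeriv_eq_iterate, Real.iter_deriv_rpow_const]

lemma adm (N : ℝ) (hN : 0 < N) (j : ℕ) (x : ℝ) (hx : x ∈ Set.Icc N (2 * N)) :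
    (Dj j / 2 ^ j) * fph N / N ^ j ≤ |iteratedDerivWithin j fph (Set.Icc N (2 * N)) x| ∧
      |iteratedDerivWithin j fph (Set.Icc N (2 * N)) x| ≤ (4 * Dj j) * fph N / N ^ j := by
  have hk := kap_pos
  have hD := Dj_pos j
  have hx0 : 0 < x := lt_of_lt_of_le hN hx.1
  have hu1 : 1 ≤ x / N := by rw [le_div_iff₀ hN]; linarith [hx.1]
  have hu2 : x / N ≤ 2 := by rw [div_le_iff₀ hN]; exact hx.2
  have hu0 : 0 < x / N := by linarith
  rw [iter_fph hN (by linarith) hx, abs_mul, abs_mul, abs_of_pos hk,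
    abs_of_pos (Real.rpow_pos_of_pos hx0 _)]
  change (Dj j / 2 ^ j) * fph N / N ^ j ≤ kap * (Dj j * x ^ ((3 / 2 : ℝ) - j)) ∧
    kap * (Dj j * x ^ ((3 / 2 : ℝ) - j)) ≤ (4 * Dj j) * fph N / N ^ j
  have hxN : x = N * (x / N) := by field_simp
  have e1 : x ^ ((3 / 2 : ℝ) - j) = (N ^ (3 / 2 : ℝ) / N ^ j) * (x / N) ^ ((3 / 2 : ℝ) - j) := by
    rw [hxN, Real.mul_rpow hN.le hu0.le]
    rw [show (N * (x / N)) / N = x / N by field_simp]
    congr 1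
    rw [Real.rpow_sub hN, Real.rpow_natCast]
  have hlow : 1 / 2 ^ j ≤ (x / N) ^ ((3 / 2 : ℝ) - j) := by
    rw [Real.rpow_sub hu0, Real.rpow_natCast]
    apply div_le_div₀ (by positivity) _ (by positivity)
    · exact pow_le_pow_left₀ hu0.le hu2 j
    · exact Real.one_le_rpow hu1 (by norm_num)
  have hup : (x / N) ^ ((3 / 2 : ℝ) - j) ≤ 4 := by
    rw [Real.rpow_sub hu0, Real.rpow_natCast]
    have h1 : (x / N) ^ (3 / 2 : ℝ) ≤ 4 := by
      calc (x / N) ^ (3 / 2 : ℝ) ≤ (x / N) ^ (2 : ℝ) :=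
            Real.rpow_le_rpow_of_exponent_le hu1 (by norm_num)
        _ ≤ 2 ^ (2 : ℝ) := Real.rpow_le_rpow hu0.le hu2 (by norm_num)
        _ = 4 := by norm_num
    have h2 : 1 ≤ (x / N) ^ j := one_le_pow₀ hu1
    calc (x / N) ^ (3 / 2 : ℝ) / (x / N) ^ j ≤ (x / N) ^ (3 / 2 : ℝ) / 1 :=
          div_le_div_of_nonneg_left (by positivity) (by norm_num) h2
      _ ≤ 4 := by rw [div_one]; exact h1
  have hP : 0 < kap * Dj j * (N ^ (3 / 2 : ℝ) / N ^ j) := by positivity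
  rw [e1]
  unfold fph
  constructor
  · calc Dj j / 2 ^ j * (kap * N ^ (3 / 2 : ℝ)) / N ^ j
        = (kap * Dj j * (N ^ (3 / 2 : ℝ) / N ^ j)) * (1 / 2 ^ j) := by ring
      _ ≤ (kap * Dj j * (N ^ (3 / 2 : ℝ) / N ^ j)) * (x / N) ^ ((3 / 2 : ℝ) - j) :=
          mul_le_mul_of_nonneg_left hlow hP.le
      _ = _ := by ring
  · calc kap * (Dj j * ((N ^ (3 / 2 : ℝ) / N ^ j) * (x / N) ^ ((3 / 2 : ℝ) - j)))
        = (kap * Dj j * (N ^ (3 / 2 : ℝ) / N ^ j)) * (x / N) ^ ((3 / 2 : ℝ) - j) := by ring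
      _ ≤ (kap * Dj j * (N ^ (3 / 2 : ℝ) / N ^ j)) * 4 :=
          mul_le_mul_of_nonneg_left hup hP.le
      _ = _ := by ring

lemma contDiffOn_fph {N : ℝ} (hN : 0 < N) :
    ContDiffOn ℝ (⊤ : ℕ∞) fph (Set.Icc N (2 * N)) := by
  intro x hx
  have hx0 : x ≠ 0 := by
    have := hx.1; intro h; linarith
  unfold fph
  exact (contDiffAt_const.mul (Real.contDiffAt_rpow_const_of_ne hx0)).contDiffWithinAt

/-- the scale parameters -/
lemma fph_scale (j : ℕ) : fph (3 * (50 * (j : ℝ) ^ 2 + 1) ^ 2) = (50 * (j : ℝ) ^ 2 + 1) ^ 3 := by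
  rw [fph_eq_g (by positivity)]
  unfold g
  rw [show 3 * (50 * (j : ℝ) ^ 2 + 1) ^ 2 = 12 * ((50 * (j : ℝ) ^ 2 + 1) / 2) ^ 2 by ring,
    T_of_sq (by positivity)]
  ring

/-- The lower bound in the shape of the problem. -/
lemma main_lower' (j : ℕ) (hj : 8 ≤ j) :
    10 * (j : ℝ) ^ 3 ≤
      ‖∑ n ∈ Finset.Icc ⌈3 * (50 * (j : ℝ) ^ 2 + 1) ^ 2⌉₊ ⌊3 * (70 * (j : ℝ) ^ 2 + 1) ^ 2⌋₊,
            Complex.exp (2 * (Real.pi : ℂ) * Complex.I * ((fph (n : ℝ) : ℝ) : ℂ))‖ + 1 := by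
  have h := main_lower j hj
  have e1 : ⌈3 * (50 * (j : ℝ) ^ 2 + 1) ^ 2⌉₊ = 3 * (50 * j ^ 2 + 1) ^ 2 := by
    have : 3 * (50 * (j : ℝ) ^ 2 + 1) ^ 2 = ((3 * (50 * j ^ 2 + 1) ^ 2 : ℕ) : ℝ) := by
      push_cast; ring
    rw [this, Nat.ceil_natCast]
  have e2 : ⌊3 * (70 * (j : ℝ) ^ 2 + 1) ^ 2⌋₊ = 3 * (70 * j ^ 2 + 1) ^ 2 := by
    have : 3 * (70 * (j : ℝ) ^ 2 + 1) ^ 2 = ((3 * (70 * j ^ 2 + 1) ^ 2 : ℕ) : ℝ) := by
      push_cast; ring
    rw [this, Nat.floor_natCast]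
  rw [e1, e2]
  have e3 : ∀ n : ℕ, fph (n : ℝ) = g (n : ℝ) := fun n => fph_eq_g (by positivity)
  simp only [e3]
  exact h

end Pool.Agent.H21
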