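import Pool.Agent.H21.ExpPairAdm

set_option autoImplicit false

/-! The phase `A x - (x/3)^(3/2)` : its derivatives of order `≥ 1` alternate in sign. -/

namespace Pool.Agent.H21

open Real Finset

/-- the phase `A x - (x/3)^(3/2)` -/
noncomputable def fal (A : ℝ) (x : ℝ) : ℝ := A * x - fph x

lemma contDiffAt_fph {x : ℝ} (hx : x ≠ 0) {n : WithTop ℕ∞} : ContDiffAt ℝ n fph x := by
  unfold fph
  exact contDiffAt_const.mul (Real.contDiffAt_rpow_const_of_ne hx)

lemma contDiffOn_fal {N : ℝ} (hN : 0 < N) (A : ℝ) :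
    ContDiffOn ℝ (⊤ : ℕ∞) (fal A) (Set.Icc N (2 * N)) := by
  unfold fal
  exact ((contDiff_const.mul contDiff_id).contDiffOn).sub (contDiffOn_fph hN)

lemma iteratedDeriv_lin (A x : ℝ) (j : ℕ) :
    iteratedDeriv j (fun x : ℝ => A * x) x = if j = 0 then A * x else if j = 1 then A else 0 := by
  rcases j with _ | _ | j
  · simp
  · simp [iteratedDeriv_one]
  · rw [if_neg (by omega), if_neg (by omega)]
    rw [iteratedDeriv_succ']
    have h1 : deriv (fun x : ℝ => A * x) = fun _ => A := by
      funext y; simp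
    rw [h1, iteratedDeriv_const]
    simp

lemma iter_fal {a b x : ℝ} (ha : 0 < a) (hab : a < b) (hx : x ∈ Set.Icc a b) (A : ℝ) (j : ℕ) :
    iteratedDerivWithin j (fal A) (Set.Icc a b) x =
      (if j = 0 then A * x else if j = 1 then A else 0) -
      kap * ((descPochhammer ℝ j).eval (3 / 2 : ℝ) * x ^ ((3 / 2 : ℝ) - j)) := by
  have hx0 : x ≠ 0 := by
    have := hx.1; intro h; linarith
  rw [← iter_fph ha hab hx j]
  have h1 : fal A = (fun x : ℝ => A * x) - fph := by
    funext y; simp [fal]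
  have hl : ContDiffAt ℝ j (fun x : ℝ => A * x) x := (contDiff_const.mul contDiff_id).contDiffAt
  rw [h1, iteratedDerivWithin_sub hx (uniqueDiffOn_Icc hab) hl.contDiffWithinAt
    (contDiffAt_fph hx0).contDiffWithinAt]
  rw [iteratedDerivWithin_eq_iteratedDeriv (uniqueDiffOn_Icc hab) hl hx, iteratedDeriv_lin]

/-- sign of the falling factorials of `3/2` -/
lemma desc_sign (j : ℕ) (hj : 2 ≤ j) :
    0 < (-1 : ℝ) ^ j * (descPochhammer ℝ j).eval (3 / 2 : ℝ) := by
  induction j, hj using Nat.le_induction with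
  | base => 
    simp [descPochhammer_succ_right]
    norm_num
  | succ k hk ih =>
    rw [descPochhammer_succ_right, Polynomial.eval_mul]
    simp only [Polynomial.eval_sub, Polynomial.eval_X, Polynomial.eval_natCast]
    have hk' : (2 : ℝ) ≤ k := by exact_mod_cast hk
    have : (-1 : ℝ) ^ (k + 1) * ((descPochhammer ℝ k).eval (3 / 2 : ℝ) * (3 / 2 - k)) =
      ((-1 : ℝ) ^ k * (descPochhammer ℝ k).eval (3 / 2 : ℝ)) * (k - 3 / 2) := by ring
    rw [this]
    exact mul_pos ih (by linarith)

end Pool.Agent.H21
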