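import Pool.Agent.H21.ExpPairCore

set_option autoImplicit false

namespace Pool.Agent.H21

open Real Finset

/-- `T x = √(x/12)` -/
noncomputable def T (x : ℝ) : ℝ := √(x / 12)

/-- `g x = (x/3)^(3/2)`, written as `8 (√(x/12))^3`. -/
noncomputable def g (x : ℝ) : ℝ := 8 * T x ^ 3

lemma T_nonneg (x : ℝ) : 0 ≤ T x := Real.sqrt_nonneg _

lemma T_sq {x : ℝ} (hx : 0 ≤ x) : T x ^ 2 = x / 12 := Real.sq_sqrt (by positivity)

lemma T_mono {x y : ℝ} (h : x ≤ y) : T x ≤ T y := Real.sqrt_le_sqrt (by linarith)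

lemma T_of_sq {y : ℝ} (hy : 0 ≤ y) : T (12 * y ^ 2) = y := by
  unfold T
  rw [show 12 * y ^ 2 / 12 = y ^ 2 by ring]
  exact Real.sqrt_sq hy

lemma T_lt_succ {x : ℝ} (hx : 0 ≤ x) : T x < T (x + 1) :=
  Real.sqrt_lt_sqrt (by positivity) (by linarith)

lemma delta_gt {x : ℝ} (hx : 0 ≤ x) : T x < g (x + 1) - g x := by
  unfold g
  have ha := T_nonneg x
  have hab := T_lt_succ hx
  have hsa := T_sq hx
  have hsb := T_sq (x := x + 1) (by linarith)
  set a := T x
  set b := T (x + 1)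
  have h1 : b ^ 2 = a ^ 2 + 1 / 12 := by linarith
  have hpos : 0 < a + b := by linarith
  have h2 : (8 * b ^ 3 - 8 * a ^ 3) * (a + b) = (2 / 3) * (a ^ 2 + a * b + b ^ 2) := by
    have : (8 * b ^ 3 - 8 * a ^ 3) * (a + b) = 8 * (b ^ 2 - a ^ 2) * (a ^ 2 + a * b + b ^ 2) := by
      ring
    rw [this, h1]; ring
  have h3 : a * (a + b) < (8 * b ^ 3 - 8 * a ^ 3) * (a + b) := by
    rw [h2]; nlinarith
  exact lt_of_mul_lt_mul_right h3 hpos.le

lemma delta_lt {x : ℝ} (hx : 0 ≤ x) : g (x + 1) - g x < T (x + 1) := by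
  unfold g
  have ha := T_nonneg x
  have hab := T_lt_succ hx
  have hsa := T_sq hx
  have hsb := T_sq (x := x + 1) (by linarith)
  set a := T x
  set b := T (x + 1)
  have h1 : b ^ 2 = a ^ 2 + 1 / 12 := by linarith
  have hpos : 0 < a + b := by linarith
  have h2 : (8 * b ^ 3 - 8 * a ^ 3) * (a + b) = (2 / 3) * (a ^ 2 + a * b + b ^ 2) := by
    have : (8 * b ^ 3 - 8 * a ^ 3) * (a + b) = 8 * (b ^ 2 - a ^ 2) * (a ^ 2 + a * b + b ^ 2) := by
      ring
    rw [this, h1]; ring
  have h3 : (8 * b ^ 3 - 8 * a ^ 3) * (a + b) < b * (a + b) := by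
    rw [h2]; nlinarith
  exact lt_of_mul_lt_mul_right h3 hpos.le

/-- right half of the block around `12 m^2` -/
lemma right_half (m r : ℕ) (hr : 10 ≤ r) (hrm : r ^ 2 ≤ m) (hmr : m < (r + 1) ^ 2) :
    (r : ℝ) / 8 - 1 / 2 ≤
      ∑ k ∈ range (12 * m + 3), Real.sin (2 * π * g (12 * m ^ 2 + k)) := by
  have hrR : (10 : ℝ) ≤ r := by exact_mod_cast hr
  have hrmR : (r : ℝ) ^ 2 ≤ m := by exact_mod_cast hrm
  have hm100 : (100 : ℝ) ≤ m := by nlinarith
  have hm0 : (0 : ℝ) < m := by linarith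
  have hrm' : (r : ℝ) ≤ m / 10 := by nlinarith
  set φ : ℕ → ℝ := fun k => g (12 * m ^ 2 + k) - 8 * m ^ 3 - m * k with hφdef
  set t : ℕ → ℝ := fun k => T (12 * m ^ 2 + k) with htdef
  have hsum : ∑ k ∈ range (12 * m + 3), Real.sin (2 * π * g (12 * m ^ 2 + k)) =
      ∑ k ∈ range (12 * m + 2 + 1), Real.sin (2 * π * φ k) := by
    apply Finset.sum_congr rfl
    intro k _
    have : 2 * π * g (12 * m ^ 2 + k) = 2 * π * φ k + ((8 * m ^ 3 + m * k : ℕ) : ℝ) * (2 * π) := by
      simp only [hφdef]; push_cast; ring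
    rw [this, Real.sin_add_nat_mul_two_pi]
  rw [hsum]
  have hx0 : ∀ k : ℕ, (0 : ℝ) ≤ 12 * m ^ 2 + k := fun k => by positivity
  have hT0 : T (12 * (m : ℝ) ^ 2) = m := T_of_sq hm0.le
  have htge : ∀ k, (m : ℝ) ≤ t k := fun k => by
    have : T (12 * (m : ℝ) ^ 2) ≤ T (12 * m ^ 2 + k) := T_mono (by
      have : (0 : ℝ) ≤ k := by positivity
      linarith)
    rw [hT0] at this; exact this
  have htsq : ∀ k, t k ^ 2 = m ^ 2 + k / 12 := fun k => by
    have := T_sq (hx0 k)
    simp only [htdef]; rw [this]; ring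
  have htdiff : ∀ k, (t k - m) * (t k + m) = k / 12 := fun k => by
    have := htsq k; ring_nf; ring_nf at this; linarith
  have hstep : ∀ k : ℕ, φ (k + 1) - φ k = g (12 * m ^ 2 + k + 1) - g (12 * m ^ 2 + k) - m := by
    intro k
    simp only [hφdef]; push_cast
    rw [show (12 * (m : ℝ) ^ 2 + (k + 1)) = 12 * m ^ 2 + k + 1 by ring]
    ring
  have hgt : ∀ k : ℕ, t k - m < φ (k + 1) - φ k := fun k => by
    rw [hstep]; have := delta_gt (hx0 k); simp only [htdef]; linarith
  have hlt : ∀ k : ℕ, φ (k + 1) - φ k < t (k + 1) - m := fun k => by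
    rw [hstep]; have := delta_lt (hx0 k); simp only [htdef]; push_cast
    rw [show (12 * (m : ℝ) ^ 2 + (k + 1)) = 12 * m ^ 2 + k + 1 by ring]
    linarith
  apply half_block m r hr hrm hmr φ t (12 * m + 2)
  · have : r ≤ m := by nlinarith
    omega
  · simp only [hφdef]; push_cast
    rw [add_zero]; unfold g; rw [hT0]; ring
  · intro k _
    have := hgt k; have := htge k; linarith
  · intro k hk
    have h1 := hlt k
    have h2 : t (k + 1) ≤ m + 1 / 2 := by
      have hk' : ((k + 1 : ℕ) : ℝ) ≤ 12 * m + 3 := by exact_mod_cast (by omega : k + 1 ≤ 12 * m + 3)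
      have h3 : T (12 * (m : ℝ) ^ 2 + ((k + 1 : ℕ) : ℝ)) ≤ T (12 * ((m : ℝ) + 1 / 2) ^ 2) := T_mono (by
        nlinarith)
      rw [T_of_sq (by positivity)] at h3
      exact h3
    linarith
  · intro k _
    have h1 := hlt k
    have h2 := hgt (k + 1)
    linarith
  · intro k hk
    have h1 := htge k
    have h2 := htdiff k
    have hk' : (k : ℝ) ≤ 5 * r := by exact_mod_cast hk
    rw [abs_of_nonneg (by linarith)]
    have h3 : (t k - m) * (2 * m) ≤ k / 12 := by
      rw [← h2]; apply mul_le_mul_of_nonneg_left _ (by linarith); linarith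
    by_contra hcon
    push Not at hcon
    nlinarith
  · intro k _
    have h2 := htdiff k
    have h3 := htsq k
    have hg : φ k = 4 * (t k - m) ^ 2 * (2 * t k + m) := by
      have hk : (k : ℝ) = 12 * (t k ^ 2 - m ^ 2) := by linarith
      have : φ k = 8 * t k ^ 3 - 8 * m ^ 3 - m * k := rfl
      rw [this, hk]; ring
    rw [hg]
    have : (k : ℝ) = 12 * ((t k - m) * (t k + m)) := by linarith
    rw [this]; ring
  · have h1 := hlt (4 * r)
    have h2 := htdiff (4 * r + 1)
    have h3 := htge (4 * r + 1)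
    push_cast at h2
    refine h1.le.trans ?_
    rw [le_div_iff₀ (by linarith)]
    have h4 : (t (4 * r + 1) - m) * (2 * m) ≤ (4 * r + 1) / 12 := by
      rw [← h2]; apply mul_le_mul_of_nonneg_left _ (by linarith); linarith
    have h5 : (t (4 * r + 1) - m) * (24 * m - 1 / 2) ≤ (t (4 * r + 1) - m) * (24 * m) :=
      mul_le_mul_of_nonneg_left (by linarith) (by linarith)
    linarith
  · have h1 := hgt (5 * r)
    have h2 := htdiff (5 * r)
    have h3 := htge (5 * r)
    push_cast at h2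
    refine le_trans ?_ h1.le
    rw [div_le_iff₀ (by linarith)]
    -- t ≤ m + 1/24
    have h6 : t (5 * r) - m ≤ 1 / 24 := by
      have h3' : (t (5 * r) - m) * (2 * m) ≤ 5 * r / 12 := by
        rw [← h2]; apply mul_le_mul_of_nonneg_left _ (by linarith); linarith
      by_contra hcon
      push Not at hcon
      nlinarith
    have h5 : (t (5 * r) - m) * (12 * (t (5 * r) + m)) ≤ (t (5 * r) - m) * (24 * m + 1 / 2) :=
      mul_le_mul_of_nonneg_left (by linarith) (by linarith)
    linarith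

/-- left half of the block around `12 m^2` -/
lemma left_half (m r : ℕ) (hr : 10 ≤ r) (hrm : r ^ 2 ≤ m) (hmr : m < (r + 1) ^ 2) :
    (r : ℝ) / 8 - 1 / 2 ≤
      ∑ k ∈ range (12 * m - 3), Real.sin (2 * π * g (12 * m ^ 2 - k)) := by
  have hrR : (10 : ℝ) ≤ r := by exact_mod_cast hr
  have hrmR : (r : ℝ) ^ 2 ≤ m := by exact_mod_cast hrm
  have hm100 : (100 : ℝ) ≤ m := by nlinarith
  have hm100N : 100 ≤ m := by exact_mod_cast hm100
  have hm0 : (0 : ℝ) < m := by linarith
  have hrm' : (r : ℝ) ≤ m / 10 := by nlinarith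
  have hrm'N : 10 * r ≤ m := by nlinarith
  set φ : ℕ → ℝ := fun k => g (12 * m ^ 2 - k) - 8 * m ^ 3 + m * k with hφdef
  set t : ℕ → ℝ := fun k => T (12 * m ^ 2 - k) with htdef
  have hsum : ∑ k ∈ range (12 * m - 3), Real.sin (2 * π * g (12 * m ^ 2 - k)) =
      ∑ k ∈ range (12 * m - 4 + 1), Real.sin (2 * π * φ k) := by
    rw [show 12 * m - 4 + 1 = 12 * m - 3 by omega]
    apply Finset.sum_congr rfl
    intro k _
    have : 2 * π * g (12 * m ^ 2 - k) = 2 * π * φ k + ((8 * m ^ 3 - m * k : ℤ) : ℝ) * (2 * π) := by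
      simp only [hφdef]; push_cast; ring
    rw [this, Real.sin_add_int_mul_two_pi]
  rw [hsum]
  have hx0 : ∀ k : ℕ, k ≤ 12 * m - 3 → (0 : ℝ) ≤ 12 * m ^ 2 - k := fun k hk => by
    have : (k : ℝ) ≤ 12 * m := by exact_mod_cast (by omega : k ≤ 12 * m)
    nlinarith
  have hT0 : T (12 * (m : ℝ) ^ 2) = m := T_of_sq hm0.le
  have htle : ∀ k, t k ≤ m := fun k => by
    have : T (12 * m ^ 2 - k) ≤ T (12 * (m : ℝ) ^ 2) := T_mono (by
      have : (0 : ℝ) ≤ k := by positivity
      linarith)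
    rw [hT0] at this; exact this
  have htsq : ∀ k, k ≤ 12 * m - 3 → t k ^ 2 = m ^ 2 - k / 12 := fun k hk => by
    have := T_sq (hx0 k hk)
    simp only [htdef]; rw [this]; ring
  have htdiff : ∀ k, k ≤ 12 * m - 3 → (m - t k) * (t k + m) = k / 12 := fun k hk => by
    have := htsq k hk; ring_nf; ring_nf at this; linarith
  have htlow : ∀ k, k ≤ 12 * m - 3 → (m : ℝ) - 1 / 2 ≤ t k := fun k hk => by
    have hk' : (k : ℝ) + 3 ≤ 12 * m := by exact_mod_cast (by omega : k + 3 ≤ 12 * m)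
    have h3 : T (12 * ((m : ℝ) - 1 / 2) ^ 2) ≤ T (12 * (m : ℝ) ^ 2 - k) := T_mono (by
        nlinarith)
    rw [T_of_sq (by linarith)] at h3
    exact h3
  have hstep : ∀ k : ℕ, φ (k + 1) - φ k =
      m - (g (12 * m ^ 2 - ((k + 1 : ℕ) : ℝ) + 1) - g (12 * m ^ 2 - ((k + 1 : ℕ) : ℝ))) := by
    intro k
    simp only [hφdef]; push_cast
    rw [show (12 * (m : ℝ) ^ 2 - (k + 1) + 1) = 12 * m ^ 2 - k by ring]
    ring
  have hgt : ∀ k : ℕ, k ≤ 12 * m - 4 → m - t k < φ (k + 1) - φ k := fun k hk => by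
    rw [hstep]; have := delta_lt (hx0 (k + 1) (by omega)); simp only [htdef]
    rw [show (12 * (m : ℝ) ^ 2 - ((k + 1 : ℕ) : ℝ) + 1) = 12 * m ^ 2 - k by push_cast; ring] at this ⊢
    linarith
  have hlt : ∀ k : ℕ, k ≤ 12 * m - 4 → φ (k + 1) - φ k < m - t (k + 1) := fun k hk => by
    rw [hstep]; have := delta_gt (hx0 (k + 1) (by omega)); simp only [htdef]
    linarith
  have hclose : ∀ k, k ≤ 5 * r + 1 → m - t k ≤ 1 / 24 := fun k hk => by
    have h1 := htle k
    have h2 := htdiff k (by omega)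
    have h4 := htlow k (by omega)
    have hk' : (k : ℝ) ≤ 5 * r + 1 := by exact_mod_cast hk
    have h3 : (m - t k) * (2 * m - 1 / 2) ≤ k / 12 := by
      rw [← h2]; apply mul_le_mul_of_nonneg_left _ (by linarith); linarith
    by_contra hcon
    push Not at hcon
    nlinarith
  apply half_block m r hr hrm hmr φ t (12 * m - 4)
  · omega
  · simp only [hφdef]; push_cast
    rw [sub_zero]; unfold g; rw [hT0]; ring
  · intro k hk
    have := hgt k hk; have := htle k; linarith
  · intro k hk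
    have h1 := hlt k hk
    have h2 := htlow (k + 1) (by omega)
    linarith
  · intro k hk
    have h1 := hlt k hk.le
    have h2 := hgt (k + 1) (by omega)
    linarith
  · intro k hk
    have h1 := htle k
    rw [abs_sub_comm, abs_of_nonneg (by linarith)]
    exact hclose k (by omega)
  · intro k hk
    have h2 := htdiff k (by omega)
    have h3 := htsq k (by omega)
    have hg : φ k = 4 * (t k - m) ^ 2 * (2 * t k + m) := by
      have hk : (k : ℝ) = 12 * (m ^ 2 - t k ^ 2) := by linarith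
      have : φ k = 8 * t k ^ 3 - 8 * m ^ 3 + m * k := rfl
      rw [this, hk]; ring
    rw [hg]
    have : (k : ℝ) = 12 * ((m - t k) * (t k + m)) := by linarith
    rw [this]; ring
  · have h1 := hlt (4 * r) (by omega)
    have h2 := htdiff (4 * r + 1) (by omega)
    have h3 := htle (4 * r + 1)
    have h4 := hclose (4 * r + 1) (by omega)
    push_cast at h2
    refine h1.le.trans ?_
    rw [le_div_iff₀ (by linarith)]
    have h5 : (m - t (4 * r + 1)) * (24 * m - 1 / 2) ≤
        (m - t (4 * r + 1)) * (12 * (t (4 * r + 1) + m)) :=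
      mul_le_mul_of_nonneg_left (by linarith) (by linarith)
    linarith
  · have h1 := hgt (5 * r) (by omega)
    have h2 := htdiff (5 * r) (by omega)
    have h3 := htle (5 * r)
    push_cast at h2
    refine le_trans ?_ h1.le
    rw [div_le_iff₀ (by linarith)]
    have h5 : (m - t (5 * r)) * (12 * (t (5 * r) + m)) ≤ (m - t (5 * r)) * (24 * m + 1 / 2) :=
      mul_le_mul_of_nonneg_left (by linarith) (by linarith)
    linarith

end Pool.Agent.H21
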