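import Mathlib

set_option autoImplicit false

/-! Elementary lower bound for the exponential sum of `(n/3)^(3/2)`:
discrete van der Corput positivity through Abel summation with a monotone cotangent weight. -/

namespace Pool.Agent.H21

open Real Finset

/-- cotangent written with `cos / sin` -/
noncomputable def ct (x : ℝ) : ℝ := Real.cos x / Real.sin x

/-- one-step identity -/
lemma sin_step (A d : ℝ) (hd : Real.sin (π * d) ≠ 0) :
    Real.sin (2 * π * A) = -(1 / 2) * (Real.sin (2 * π * (A + d)) - Real.sin (2 * π * A))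
      + (1 / 2) * (ct (π * d) * (Real.cos (2 * π * A) - Real.cos (2 * π * (A + d)))) := by
  have e1 : 2 * π * (A + d) = 2 * π * A + 2 * (π * d) := by ring
  unfold ct
  rw [e1, Real.sin_add, Real.cos_add, Real.sin_two_mul, Real.cos_two_mul]
  have hs : Real.cos (π * d) ^ 2 = 1 - Real.sin (π * d) ^ 2 := by
    have := Real.sin_sq_add_cos_sq (π * d); linarith
  field_simp
  ring_nf
  have hc : Real.cos (π * d) ^ 3 = Real.cos (π * d) * (1 - Real.sin (π * d) ^ 2) := by
    rw [← hs]; ring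
  rw [hc]
  ring

lemma abel (κ c : ℕ → ℝ) (n : ℕ) (hc0 : c 0 = 1) :
    ∑ k ∈ range (n + 1), κ k * (c k - c (k + 1)) =
      κ n * (1 - c (n + 1)) + ∑ k ∈ range n, (κ k - κ (k + 1)) * (1 - c (k + 1)) := by
  induction n with
  | zero => simp [hc0]
  | succ n ih =>
    rw [Finset.sum_range_succ, ih, Finset.sum_range_succ]
    ring

lemma ct_anti {a b : ℝ} (ha : 0 < a) (hab : a ≤ b) (hb : b ≤ π / 2) : ct b ≤ ct a := by
  unfold ct
  have hpi := Real.pi_pos
  have hsa : 0 < Real.sin a := Real.sin_pos_of_pos_of_lt_pi ha (by linarith)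
  have hsb : 0 < Real.sin b := Real.sin_pos_of_pos_of_lt_pi (by linarith) (by linarith)
  rw [div_le_div_iff₀ hsb hsa]
  have hcb : 0 ≤ Real.cos b := Real.cos_nonneg_of_neg_pi_div_two_le_of_le (by linarith) hb
  have hc : Real.cos b ≤ Real.cos a :=
    Real.cos_le_cos_of_nonneg_of_le_pi ha.le (by linarith) hab
  have hs : Real.sin a ≤ Real.sin b :=
    Real.sin_le_sin_of_le_of_le_pi_div_two (by linarith) hb hab
  nlinarith

lemma ct_nonneg {b : ℝ} (hb0 : 0 < b) (hb : b ≤ π / 2) : 0 ≤ ct b := by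
  unfold ct
  have hpi := Real.pi_pos
  have hsb : 0 < Real.sin b := Real.sin_pos_of_pos_of_lt_pi (by linarith) (by linarith)
  have hcb : 0 ≤ Real.cos b := Real.cos_nonneg_of_neg_pi_div_two_le_of_le (by linarith) hb
  positivity

/-- The discrete van der Corput positivity lemma. -/
lemma sum_sin_lower (φ : ℕ → ℝ) (n : ℕ) (h0 : φ 0 = 0)
    (hpos : ∀ k ≤ n, 0 < φ (k + 1) - φ k)
    (hhalf : ∀ k ≤ n, φ (k + 1) - φ k ≤ 1 / 2)
    (hmono : ∀ k < n, φ (k + 1) - φ k ≤ φ (k + 2) - φ (k + 1))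
    (a b : ℕ) (hab : a ≤ b) (hbn : b ≤ n)
    (hcos : ∀ k, a < k → k ≤ b → Real.cos (2 * π * φ k) ≤ 0) :
    (1 / 2) * (ct (π * (φ (a + 1) - φ a)) - ct (π * (φ (b + 1) - φ b))) - 1 / 2 ≤
      ∑ k ∈ range (n + 1), Real.sin (2 * π * φ k) := by
  have hpi := Real.pi_pos
  set κ : ℕ → ℝ := fun k => ct (π * (φ (k + 1) - φ k)) with hκ
  set c : ℕ → ℝ := fun k => Real.cos (2 * π * φ k) with hc
  have hc0 : c 0 = 1 := by simp [hc, h0]
  have hδpos : ∀ k ≤ n, 0 < π * (φ (k + 1) - φ k) := fun k hk => mul_pos hpi (hpos k hk)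
  have hδle : ∀ k ≤ n, π * (φ (k + 1) - φ k) ≤ π / 2 := fun k hk => by
    have := hhalf k hk; nlinarith
  have hsin : ∀ k ≤ n, Real.sin (π * (φ (k + 1) - φ k)) ≠ 0 := fun k hk =>
    (Real.sin_pos_of_pos_of_lt_pi (hδpos k hk) (by have := hδle k hk; linarith)).ne'
  have hκanti : ∀ k < n, κ (k + 1) ≤ κ k := fun k hk => by
    apply ct_anti (hδpos k hk.le) _ (hδle (k + 1) hk)
    have := hmono k hk
    exact mul_le_mul_of_nonneg_left this hpi.le
  have hκn : 0 ≤ κ n := ct_nonneg (hδpos n le_rfl) (hδle n le_rfl)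
  have hsum : ∑ k ∈ range (n + 1), Real.sin (2 * π * φ k) =
      ∑ k ∈ range (n + 1), (-(1 / 2) * (Real.sin (2 * π * φ (k + 1)) - Real.sin (2 * π * φ k))
        + (1 / 2) * (κ k * (c k - c (k + 1)))) := by
    apply Finset.sum_congr rfl
    intro k hk
    have hk' : k ≤ n := by simpa [Nat.lt_succ_iff] using hk
    have := sin_step (φ k) (φ (k + 1) - φ k) (hsin k hk')
    have e : φ k + (φ (k + 1) - φ k) = φ (k + 1) := by ring
    rw [e] at this
    exact this
  rw [hsum, Finset.sum_add_distrib, ← Finset.mul_sum, ← Finset.mul_sum,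
    Finset.sum_range_sub (fun k => Real.sin (2 * π * φ k)), abel κ c n hc0]
  have h1 : Real.sin (2 * π * φ (n + 1)) - Real.sin (2 * π * φ 0) ≤ 1 := by
    rw [h0]; simp [Real.sin_le_one]
  have h2 : 0 ≤ κ n * (1 - c (n + 1)) := mul_nonneg hκn (by
    have := Real.cos_le_one (2 * π * φ (n + 1)); simp only [hc]; linarith)
  have h3 : ct (π * (φ (a + 1) - φ a)) - ct (π * (φ (b + 1) - φ b)) ≤
      ∑ k ∈ range n, (κ k - κ (k + 1)) * (1 - c (k + 1)) := by
    have hsub : Finset.Ico a b ⊆ range n := by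
      intro k hk
      simp only [Finset.mem_Ico] at hk
      simp only [Finset.mem_range]; omega
    calc ct (π * (φ (a + 1) - φ a)) - ct (π * (φ (b + 1) - φ b))
        = κ a - κ b := rfl
      _ = ∑ k ∈ Finset.Ico a b, (κ k - κ (k + 1)) := by
          rw [Finset.sum_Ico_eq_sub _ hab]
          rw [Finset.sum_range_sub', Finset.sum_range_sub']; ring
      _ ≤ ∑ k ∈ Finset.Ico a b, (κ k - κ (k + 1)) * (1 - c (k + 1)) := by
          apply Finset.sum_le_sum
          intro k hk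
          simp only [Finset.mem_Ico] at hk
          have h4 : 0 ≤ κ k - κ (k + 1) := by
            have := hκanti k (by omega); linarith
          have h5 : c (k + 1) ≤ 0 := hcos (k + 1) (by omega) (by omega)
          nlinarith
      _ ≤ ∑ k ∈ range n, (κ k - κ (k + 1)) * (1 - c (k + 1)) := by
          apply Finset.sum_le_sum_of_subset_of_nonneg hsub
          intro k hk _
          simp only [Finset.mem_range] at hk
          have h4 : 0 ≤ κ k - κ (k + 1) := by
            have := hκanti k (by omega); linarith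
          have h5 : c (k + 1) ≤ 1 := Real.cos_le_one _
          exact mul_nonneg h4 (by linarith)
  linarith


lemma ct_lower {a : ℝ} (ha : 0 < a) (ha1 : a ≤ 1) : 1 / a - a / 2 ≤ ct a := by
  unfold ct
  have hpi := Real.pi_gt_three
  have hs : 0 < Real.sin a := Real.sin_pos_of_pos_of_lt_pi ha (by linarith)
  have hsle : Real.sin a ≤ a := Real.sin_le ha.le
  have hc : 1 - a ^ 2 / 2 ≤ Real.cos a := Real.one_sub_sq_div_two_le_cos
  have h1 : 1 / a - a / 2 = (1 - a ^ 2 / 2) / a := by field_simp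
  rw [h1]
  have h2 : 0 ≤ 1 - a ^ 2 / 2 := by nlinarith
  calc (1 - a ^ 2 / 2) / a ≤ (1 - a ^ 2 / 2) / Real.sin a :=
        div_le_div_of_nonneg_left h2 hs hsle
    _ ≤ Real.cos a / Real.sin a := div_le_div_of_nonneg_right hc hs.le

lemma ct_upper {b : ℝ} (hb : 0 < b) (hb1 : b ≤ π / 2) : ct b ≤ 1 / b := by
  unfold ct
  have hpi := Real.pi_gt_three
  have hs : 0 < Real.sin b := Real.sin_pos_of_pos_of_lt_pi hb (by linarith)
  rcases hb1.lt_or_eq with h | h
  · have hcos : 0 < Real.cos b := Real.cos_pos_of_mem_Ioo ⟨by linarith, h⟩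
    have := Real.lt_tan hb h
    rw [Real.tan_eq_sin_div_cos, lt_div_iff₀ hcos] at this
    rw [div_le_div_iff₀ hs hb]
    linarith
  · rw [h]; simp; positivity

/-- Lower bound for half of a block. -/
lemma half_block (m r : ℕ) (hr : 10 ≤ r) (hrm : r ^ 2 ≤ m) (hmr : m < (r + 1) ^ 2)
    (φ t : ℕ → ℝ) (n : ℕ) (hn : 5 * r ≤ n) (h0 : φ 0 = 0)
    (hpos : ∀ k ≤ n, 0 < φ (k + 1) - φ k)
    (hhalf : ∀ k ≤ n, φ (k + 1) - φ k ≤ 1 / 2)
    (hmono : ∀ k < n, φ (k + 1) - φ k ≤ φ (k + 2) - φ (k + 1))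
    (ht : ∀ k ≤ 5 * r, |t k - m| ≤ 1 / 24)
    (hφ : ∀ k ≤ 5 * r, φ k * (36 * (t k + m) ^ 2) = (k : ℝ) ^ 2 * (2 * t k + m))
    (hδ1 : φ (4 * r + 1) - φ (4 * r) ≤ (4 * r + 1) / (24 * m - 1 / 2))
    (hδ2 : (5 * r) / (24 * m + 1 / 2) ≤ φ (5 * r + 1) - φ (5 * r)) :
    (r : ℝ) / 8 - 1 / 2 ≤ ∑ k ∈ range (n + 1), Real.sin (2 * π * φ k) := by
  have hpi := Real.pi_gt_three
  have hpi4 := Real.pi_le_four
  have hpi315 : π < 3.15 := Real.pi_lt_d2
  have hrR : (10 : ℝ) ≤ r := by exact_mod_cast hr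
  have hrmR : (r : ℝ) ^ 2 ≤ m := by exact_mod_cast hrm
  have hmrR : (m : ℝ) + 1 ≤ (r + 1) ^ 2 := by exact_mod_cast hmr
  have hm100 : (100 : ℝ) ≤ m := by nlinarith
  have hcos : ∀ k, 4 * r < k → k ≤ 5 * r → Real.cos (2 * π * φ k) ≤ 0 := by
    intro k hk1 hk2
    have hk1R : (4 * r : ℝ) + 1 ≤ k := by exact_mod_cast hk1
    have hk2R : (k : ℝ) ≤ 5 * r := by exact_mod_cast hk2
    have htk := abs_le.mp (ht k hk2)
    have he := hφ k hk2
    have hpos36 : 0 < 36 * (t k + m) ^ 2 := by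
      have : 0 < t k + m := by linarith
      positivity
    have hlow : 1 / 4 ≤ φ k := by
      by_contra hcon
      push Not at hcon
      have h1 : φ k * (36 * (t k + m) ^ 2) ≤ 1 / 4 * (36 * (t k + m) ^ 2) :=
        mul_le_mul_of_nonneg_right hcon.le hpos36.le
      have hk2' : 13 * (m : ℝ) ≤ (k : ℝ) ^ 2 := by
        have : (4 * r + 1 : ℝ) ^ 2 ≤ (k : ℝ) ^ 2 := by
          apply pow_le_pow_left₀ (by linarith) hk1R
        nlinarith
      have h2 : 13 * (m : ℝ) * (2 * t k + m) ≤ (k : ℝ) ^ 2 * (2 * t k + m) :=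
        mul_le_mul_of_nonneg_right hk2' (by linarith)
      have h3 : 13 * (m : ℝ) * (2 * t k + m) ≤ 9 * (t k + m) ^ 2 := by
        have : 1 / 4 * (36 * (t k + m) ^ 2) = 9 * (t k + m) ^ 2 := by ring
        linarith
      -- 13 m (2t+m) vs 9 (t+m)^2 with t close to m
      obtain ⟨s, hs⟩ : ∃ s : ℝ, t k = m + s := ⟨t k - m, by ring⟩
      rw [hs] at h3 htk
      have hs1 : -(1 / 24) ≤ s := by linarith [htk.1]
      have hs2 : s ≤ 1 / 24 := by linarith [htk.2]
      have h4 : (m : ℝ) * s ≤ m * (1 / 24) := mul_le_mul_of_nonneg_left hs2 (by linarith)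
      have h5 : s ^ 2 ≤ 1 := by nlinarith
      have h6 : (m : ℝ) * s ≥ m * (-(1 / 24)) := mul_le_mul_of_nonneg_left hs1 (by linarith)
      have h7 : (100 : ℝ) * m ≤ m * m := mul_le_mul_of_nonneg_right hm100 (by linarith)
      nlinarith [h3, h4, h5, h6, h7]
    have hup : φ k ≤ 3 / 4 := by
      by_contra hcon
      push Not at hcon
      have h1 : 3 / 4 * (36 * (t k + m) ^ 2) ≤ φ k * (36 * (t k + m) ^ 2) :=
        mul_le_mul_of_nonneg_right hcon.le hpos36.le
      have hk2' : (k : ℝ) ^ 2 ≤ 25 * (m : ℝ) := by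
        have : (k : ℝ) ^ 2 ≤ (5 * r : ℝ) ^ 2 := by
          apply pow_le_pow_left₀ (by linarith) hk2R
        nlinarith
      have h2 : (k : ℝ) ^ 2 * (2 * t k + m) ≤ 25 * (m : ℝ) * (2 * t k + m) :=
        mul_le_mul_of_nonneg_right hk2' (by linarith)
      obtain ⟨s, hs⟩ : ∃ s : ℝ, t k = m + s := ⟨t k - m, by ring⟩
      have h3 : 3 / 4 * (36 * (t k + m) ^ 2) ≤ 25 * (m : ℝ) * (2 * t k + m) := by linarith
      rw [hs] at h3 htk
      have hs1 : -(1 / 24) ≤ s := by linarith [htk.1]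
      have hs2 : s ≤ 1 / 24 := by linarith [htk.2]
      have h4 : (m : ℝ) * s ≤ m * (1 / 24) := mul_le_mul_of_nonneg_left hs2 (by linarith)
      have h6 : (m : ℝ) * s ≥ m * (-(1 / 24)) := mul_le_mul_of_nonneg_left hs1 (by linarith)
      have h7 : (100 : ℝ) * m ≤ m * m := mul_le_mul_of_nonneg_right hm100 (by linarith)
      nlinarith [h3, h4, h6, h7, sq_nonneg s]
    apply Real.cos_nonpos_of_pi_div_two_le_of_le
    · nlinarith
    · nlinarith
  have hmain := sum_sin_lower φ n h0 hpos hhalf hmono (4 * r) (5 * r) (by omega) hn hcos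
  set a := φ (4 * r + 1) - φ (4 * r) with ha
  set b := φ (5 * r + 1) - φ (5 * r) with hb
  have hapos : 0 < a := hpos (4 * r) (by omega)
  have hbpos : 0 < b := hpos (5 * r) hn
  have hbhalf : b ≤ 1 / 2 := hhalf (5 * r) hn
  have hA : (24 * (m : ℝ) - 1 / 2) / (π * (4 * r + 1)) - 1 / 10 ≤ ct (π * a) := by
    set a' : ℝ := π * ((4 * r + 1) / (24 * m - 1 / 2)) with ha'
    have hden : 0 < 24 * (m : ℝ) - 1 / 2 := by linarith
    have ha'pos : 0 < a' := by rw [ha']; positivity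
    have ha'small : a' ≤ 1 / 5 := by
      rw [ha', ← mul_div_assoc, div_le_iff₀ hden]
      nlinarith
    have h1 : π * a ≤ a' := by
      rw [ha']; exact mul_le_mul_of_nonneg_left hδ1 (by linarith)
    have h2 : ct a' ≤ ct (π * a) := ct_anti (by positivity) h1 (by linarith)
    have h3 := ct_lower ha'pos (by linarith)
    have h4 : 1 / a' = (24 * (m : ℝ) - 1 / 2) / (π * (4 * r + 1)) := by
      rw [ha']; field_simp
    rw [h4] at h3
    linarith
  have hB : ct (π * b) ≤ (24 * (m : ℝ) + 1 / 2) / (π * (5 * r)) := by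
    have h1 : 0 < π * b := by positivity
    have h2 := ct_upper h1 (by nlinarith)
    have h3 : π * ((5 * r) / (24 * m + 1 / 2)) ≤ π * b :=
      mul_le_mul_of_nonneg_left hδ2 (by linarith)
    have h4 : 0 < π * ((5 * r : ℝ) / (24 * m + 1 / 2)) := by positivity
    have h5 : 1 / (π * b) ≤ 1 / (π * ((5 * r : ℝ) / (24 * m + 1 / 2))) :=
      one_div_le_one_div_of_le h4 h3
    have h6 : 1 / (π * ((5 * r : ℝ) / (24 * m + 1 / 2))) =
        (24 * (m : ℝ) + 1 / 2) / (π * (5 * r)) := by field_simp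
    linarith
  have hdiff : (r : ℝ) / 4 + 1 / 10 ≤ (24 * (m : ℝ) - 1 / 2) / (π * (4 * r + 1)) -
      (24 * (m : ℝ) + 1 / 2) / (π * (5 * r)) := by
    have h1 : (24 * (m : ℝ) - 1 / 2) / (π * (4 * r + 1)) -
      (24 * (m : ℝ) + 1 / 2) / (π * (5 * r)) =
      (24 * m * (r - 1) - 1 / 2 * (9 * r + 1)) / (π * ((4 * r + 1) * (5 * r))) := by
      field_simp
      ring
    rw [h1, le_div_iff₀ (by positivity)]
    have h2 : 24 * (r : ℝ) ^ 2 * (r - 1) ≤ 24 * m * (r - 1) := by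
      apply mul_le_mul_of_nonneg_right _ (by linarith)
      linarith
    have h3 : ((r : ℝ) / 4 + 1 / 10) * (π * ((4 * r + 1) * (5 * r))) ≤
        ((r : ℝ) / 4 + 1 / 10) * (3.15 * ((4 * r + 1) * (5 * r))) := by
      apply mul_le_mul_of_nonneg_left _ (by positivity)
      apply mul_le_mul_of_nonneg_right hpi315.le (by positivity)
    have h4 : ((r : ℝ) / 4 + 1 / 10) * (3.15 * ((4 * r + 1) * (5 * r))) ≤
        24 * (r : ℝ) ^ 2 * (r - 1) - 1 / 2 * (9 * r + 1) := by
      have e1 : (10 : ℝ) * r ^ 2 ≤ r ^ 3 := by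
        have : (10 : ℝ) * r ^ 2 ≤ r * r ^ 2 := mul_le_mul_of_nonneg_right hrR (by positivity)
        calc (10 : ℝ) * r ^ 2 ≤ r * r ^ 2 := this
          _ = r ^ 3 := by ring
      have e2 : (10 : ℝ) * r ≤ r ^ 2 := by nlinarith
      have e3 : ((r : ℝ) / 4 + 1 / 10) * (3.15 * ((4 * r + 1) * (5 * r))) =
        15.75 * r ^ 3 + 10.2375 * r ^ 2 + 1.575 * r := by ring
      have e4 : 24 * (r : ℝ) ^ 2 * (r - 1) - 1 / 2 * (9 * r + 1) =
        24 * r ^ 3 - 24 * r ^ 2 - 4.5 * r - 0.5 := by ring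
      rw [e3, e4]
      linarith
    linarith
  linarith

end Pool.Agent.H21
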