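import Pool.Agent.H21.ExpPairBlock

set_option autoImplicit false

namespace Pool.Agent.H21

open Real Finset

lemma block_sum (m r A : ℕ) (hr : 10 ≤ r) (hrm : r ^ 2 ≤ m) (hmr : m < (r + 1) ^ 2)
    (hA : A + 12 * m = 12 * m ^ 2 + 3) :
    (r : ℝ) / 4 - 2 ≤
      ∑ n ∈ Finset.Ico (A + 1) (12 * m ^ 2 + 12 * m + 3 + 1), Real.sin (2 * π * g ((n : ℕ) : ℝ)) := by
  have hR := right_half m r hr hrm hmr
  have hL := left_half m r hr hrm hmr
  have hm : 100 ≤ m := by nlinarith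
  have hm2 : 100 * m ≤ m ^ 2 := by nlinarith
  have h1 : ∑ n ∈ Finset.Ico (A + 1) (12 * m ^ 2 + 12 * m + 3 + 1), Real.sin (2 * π * g ((n : ℕ) : ℝ)) =
      ∑ n ∈ Finset.Ico (A + 1) (12 * m ^ 2 + 1), Real.sin (2 * π * g ((n : ℕ) : ℝ)) +
      ∑ n ∈ Finset.Ico (12 * m ^ 2 + 1) (12 * m ^ 2 + 12 * m + 3 + 1), Real.sin (2 * π * g ((n : ℕ) : ℝ)) := by
    rw [Finset.sum_Ico_consecutive _ (by omega) (by omega)]
  have hzero : Real.sin (2 * π * g ((12 * m ^ 2 : ℕ) : ℝ)) = 0 := by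
    have : g ((12 * m ^ 2 : ℕ) : ℝ) = ((8 * m ^ 3 : ℕ) : ℝ) := by
      unfold g; push_cast
      rw [T_of_sq (by positivity)]
    rw [this]
    have := Real.sin_nat_mul_pi (2 * (8 * m ^ 3))
    rw [← this]; congr 1; push_cast; ring
  have h2 : ∑ n ∈ Finset.Ico (A + 1) (12 * m ^ 2 + 1), Real.sin (2 * π * g ((n : ℕ) : ℝ)) =
      ∑ k ∈ range (12 * m - 3), Real.sin (2 * π * g (12 * m ^ 2 - k)) := by
    symm
    apply Finset.sum_nbij' (fun k => 12 * m ^ 2 - k) (fun n => 12 * m ^ 2 - n)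
    · intro k hk
      simp only [Finset.mem_range] at hk
      simp only [Finset.mem_Ico]; omega
    · intro n hn
      simp only [Finset.mem_Ico] at hn
      simp only [Finset.mem_range]; omega
    · intro k hk
      simp only [Finset.mem_range] at hk
      omega
    · intro n hn
      simp only [Finset.mem_Ico] at hn
      omega
    · intro k hk
      simp only [Finset.mem_range] at hk
      rw [Nat.cast_sub (by omega)]
      push_cast; ring_nf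
  have h3 : ∑ n ∈ Finset.Ico (12 * m ^ 2 + 1) (12 * m ^ 2 + 12 * m + 3 + 1),
      Real.sin (2 * π * g ((n : ℕ) : ℝ)) =
      ∑ n ∈ Finset.Ico (12 * m ^ 2) (12 * m ^ 2 + 12 * m + 3), Real.sin (2 * π * g ((n : ℕ) : ℝ)) +
        Real.sin (2 * π * g ((12 * m ^ 2 + 12 * m + 3 : ℕ) : ℝ)) := by
    rw [Finset.sum_Ico_succ_top (by omega), Finset.sum_eq_sum_Ico_succ_bot (by omega : 12 * m ^ 2 < 12 * m ^ 2 + 12 * m + 3), hzero]
    ring
  have h4 : ∑ n ∈ Finset.Ico (12 * m ^ 2) (12 * m ^ 2 + 12 * m + 3), Real.sin (2 * π * g ((n : ℕ) : ℝ)) =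
      ∑ k ∈ range (12 * m + 3), Real.sin (2 * π * g (12 * m ^ 2 + k)) := by
    rw [Finset.sum_Ico_eq_sum_range]
    rw [show 12 * m ^ 2 + 12 * m + 3 - 12 * m ^ 2 = 12 * m + 3 by omega]
    apply Finset.sum_congr rfl
    intro k _
    push_cast; ring_nf
  have h5 := Real.neg_one_le_sin (2 * π * g ((12 * m ^ 2 + 12 * m + 3 : ℕ) : ℝ))
  rw [h1, h2, h3, h4]
  linarith

/-- sum over many blocks -/
lemma blocks_sum (r M L : ℕ) (hr : 10 ≤ r) (hM : r ^ 2 ≤ M) :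
    (L : ℝ) * ((r : ℝ) / 4 - 2) ≤
      ∑ n ∈ Finset.Ico (3 * (2 * M + 1) ^ 2 + 1) (3 * (2 * (M + L) + 1) ^ 2 + 1),
        Real.sin (2 * π * g ((n : ℕ) : ℝ)) := by
  induction L with
  | zero => simp
  | succ L ih =>
    have hmono : 3 * (2 * (M + L) + 1) ^ 2 + 1 ≤ 3 * (2 * (M + (L + 1)) + 1) ^ 2 + 1 := by
      have : (2 * (M + L) + 1) ^ 2 ≤ (2 * (M + (L + 1)) + 1) ^ 2 :=
        Nat.pow_le_pow_left (by omega) 2
      omega
    have hmono' : 3 * (2 * M + 1) ^ 2 + 1 ≤ 3 * (2 * (M + L) + 1) ^ 2 + 1 := by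
      have : (2 * M + 1) ^ 2 ≤ (2 * (M + L) + 1) ^ 2 :=
        Nat.pow_le_pow_left (by omega) 2
      omega
    rw [← Finset.sum_Ico_consecutive _ hmono' hmono]
    set m := M + (L + 1) with hm
    have hmr1 : (Nat.sqrt m) ^ 2 ≤ m := Nat.sqrt_le' m
    have hmr2 : m < (Nat.sqrt m + 1) ^ 2 := Nat.lt_succ_sqrt' m
    have hrs : r ≤ Nat.sqrt m := by
      rw [Nat.le_sqrt']; omega
    have hb := block_sum m (Nat.sqrt m) (3 * (2 * (M + L) + 1) ^ 2) (by omega) hmr1 hmr2 (by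
      rw [hm]; ring)
    have e : 12 * m ^ 2 + 12 * m + 3 + 1 = 3 * (2 * m + 1) ^ 2 + 1 := by ring
    rw [e] at hb
    have hrs' : (r : ℝ) ≤ (Nat.sqrt m : ℝ) := by exact_mod_cast hrs
    push_cast
    linarith

/-- Main lower bound. -/
lemma main_lower (j : ℕ) (hj : 8 ≤ j) :
    10 * (j : ℝ) ^ 3 ≤
      ‖∑ n ∈ Finset.Icc (3 * (50 * j ^ 2 + 1) ^ 2) (3 * (70 * j ^ 2 + 1) ^ 2),
            Complex.exp (2 * (Real.pi : ℂ) * Complex.I * ((g ((n : ℕ) : ℝ) : ℝ) : ℂ))‖ + 1 := by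
  have h := blocks_sum (5 * j) (25 * j ^ 2) (10 * j ^ 2) (by omega) (by ring_nf; omega)
  rw [show 3 * (2 * (25 * j ^ 2) + 1) ^ 2 + 1 = 3 * (50 * j ^ 2 + 1) ^ 2 + 1 by ring,
    show 3 * (2 * (25 * j ^ 2 + 10 * j ^ 2) + 1) ^ 2 + 1 = 3 * (70 * j ^ 2 + 1) ^ 2 + 1 by ring] at h
  have hle : 3 * (50 * j ^ 2 + 1) ^ 2 ≤ 3 * (70 * j ^ 2 + 1) ^ 2 := by
    have : (50 * j ^ 2 + 1) ^ 2 ≤ (70 * j ^ 2 + 1) ^ 2 := Nat.pow_le_pow_left (by omega) 2
    omega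
  set A := 3 * (50 * j ^ 2 + 1) ^ 2 with hA
  set B := 3 * (70 * j ^ 2 + 1) ^ 2 with hB
  have him : ∀ n : ℕ, (Complex.exp (2 * (Real.pi : ℂ) * Complex.I * ((g ((n : ℕ) : ℝ) : ℝ) : ℂ))).im =
      Real.sin (2 * π * g ((n : ℕ) : ℝ)) := by
    intro n
    have : 2 * (Real.pi : ℂ) * Complex.I * ((g (n : ℝ) : ℝ) : ℂ) =
        ((2 * π * g n : ℝ) : ℂ) * Complex.I := by push_cast; ring
    rw [this, Complex.exp_ofReal_mul_I_im]
  have hsplit : ∑ n ∈ Finset.Icc A B, Real.sin (2 * π * g ((n : ℕ) : ℝ)) =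
      Real.sin (2 * π * g A) + ∑ n ∈ Finset.Ico (A + 1) (B + 1), Real.sin (2 * π * g ((n : ℕ) : ℝ)) := by
    have : Finset.Icc A B = Finset.Ico A (B + 1) := by
      ext x; simp only [Finset.mem_Icc, Finset.mem_Ico]; omega
    rw [this, Finset.sum_eq_sum_Ico_succ_bot (by omega)]
  have hnorm : (∑ n ∈ Finset.Icc A B, Real.sin (2 * π * g ((n : ℕ) : ℝ))) ≤
      ‖∑ n ∈ Finset.Icc A B,
            Complex.exp (2 * (Real.pi : ℂ) * Complex.I * ((g ((n : ℕ) : ℝ) : ℝ) : ℂ))‖ := by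
    have h1 := Complex.im_le_norm (∑ n ∈ Finset.Icc A B,
            Complex.exp (2 * (Real.pi : ℂ) * Complex.I * ((g ((n : ℕ) : ℝ) : ℝ) : ℂ)))
    rw [Complex.im_sum] at h1
    simp only [him] at h1
    exact h1
  have hs := Real.neg_one_le_sin (2 * π * g A)
  have hjR : (8 : ℝ) ≤ j := by exact_mod_cast hj
  have hfin : 10 * (j : ℝ) ^ 3 ≤ ((10 * j ^ 2 : ℕ) : ℝ) * (((5 * j : ℕ) : ℝ) / 4 - 2) := by
    push_cast
    have : (8 : ℝ) * j ^ 2 ≤ j ^ 3 := by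
      have := mul_le_mul_of_nonneg_right hjR (by positivity : (0 : ℝ) ≤ (j : ℝ) ^ 2)
      calc (8 : ℝ) * j ^ 2 ≤ j * j ^ 2 := this
        _ = j ^ 3 := by ring
    nlinarith
  linarith

end Pool.Agent.H21
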